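import Pool.Agent.Work.MP_768e99_starfree.Model

set_option autoImplicit false
set_option linter.unusedSectionVars false
set_option linter.unusedSimpArgs false
set_option linter.unusedVariables false

namespace Pool.Agent.Work.MP_768e99_starfree

open Pool.Agent.Work.MP_768e99_co

variable {V : Type*} {G : SimpleGraph V}

lemma minor_swap {r s : ℕ} (h : HasBicliqueMinor G s r) : HasBicliqueMinor G r s := by
  obtain ⟨B, h1, h2, h3⟩ := h
  refine ⟨fun w => B w.swap, fun w => h1 _, ?_, ?_⟩
  · intro w w' hne
    apply h2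
    intro h
    apply hne
    have := congrArg Sum.swap h
    simpa using this
  · intro w w' hadj
    apply h3
    rcases w with i | i <;> rcases w' with j | j <;> simp_all [completeBipartiteGraph]

lemma minor_of_model {X : Finset V} {ρ s : ℕ} (h : Model G X ρ s) : HasBicliqueMinor G ρ s := by
  by_contra hcon
  apply not_KM_of_not_minor hcon
  obtain ⟨D, y, h1, h2, h3, h4, h5, h6, h7⟩ := h
  refine ⟨D, fun j => {y j}, fun _ => Set.subset_univ _, fun _ => Set.subset_univ _, h3,
    fun j => Conn.singleton _, h4, ?_, ?_, ?_⟩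
  · intro j j' hjj
    rw [Set.disjoint_singleton]
    exact fun h => hjj (h5 h)
  · intro i j
    rw [Set.disjoint_singleton_right]
    exact h6 i j
  · intro i j
    obtain ⟨u, hu, hadj⟩ := h7 i j
    exact ⟨u, hu, y j, rfl, hadj.symm⟩

open Classical in
lemma alpha_of_free {t : ℕ} (hfree : IsEmpty (completeBipartiteGraph (Fin 1) (Fin t) ↪g G))
    (v : V) (X : Finset V) (hX : ∀ x ∈ X, G.Adj v x) (ht : 1 ≤ t) : AlphaLe G X (t - 1) := by
  intro S hS hI
  by_contra hcon
  push Not at hcon
  obtain ⟨T, hT, hTc⟩ := Finset.exists_subset_card_eq (show t ≤ S.card by omega)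
  have e : Fin t ≃ T := (Fintype.equivFinOfCardEq (by simpa using hTc)).symm
  have hmem : ∀ j, (e j : V) ∈ S := fun j => hT (e j).2
  let f : Fin 1 ⊕ Fin t → V := Sum.elim (fun _ => v) (fun j => (e j : V))
  have hf : Function.Injective f := by
    rintro (i | i) (j | j) hij
    · exact congrArg Sum.inl (Subsingleton.elim i j)
    · have h1 : v = (e j : V) := hij
      exact absurd h1 (hX _ (hS (hmem j))).ne
    · have h1 : (e i : V) = v := hij
      exact absurd h1 (hX _ (hS (hmem i))).ne'
    · have h1 : (e i : V) = (e j : V) := hij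
      exact congrArg Sum.inr (e.injective (Subtype.ext h1))
  refine hfree.false ⟨⟨f, hf⟩, ?_⟩
  rintro (i | i) (j | j)
  · show G.Adj v v ↔ _
    simp
  · show G.Adj v (e j) ↔ _
    simpa using hX _ (hS (hmem j))
  · show G.Adj (e i) v ↔ _
    simpa using (hX _ (hS (hmem i))).symm
  · show G.Adj (e i) (e j) ↔ _
    simpa using hI _ (hmem i) _ (hmem j)

open Classical in
/-- The degree bound. -/
theorem degree_bound [Finite V] {t r s : ℕ} (ht : 2 ≤ t) (hr : 2 ≤ r) (hrs : r ≤ s)
    (hfree : IsEmpty (completeBipartiteGraph (Fin 1) (Fin t) ↪g G))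
    (hm : ¬ HasBicliqueMinor G r s) (v : V) (X : Finset V) (hX : ∀ x ∈ X, G.Adj v x) :
    X.card ≤ (t - 1) * s + (2 * t - 3) * (r - 2) := by
  by_contra hcon
  push Not at hcon
  apply hm
  have hmod := exists_model (G := G) (s := s) X.card X le_rfl (t - 1) (r - 1) (by omega)
    (alpha_of_free hfree v X hX (by omega)) (by
      have e1 : 2 * (t - 1) - 1 = 2 * t - 3 := by omega
      have e2 : r - 1 - 1 = r - 2 := by omega
      rw [e1, e2]; exact hcon)
  have h2 : Model G (insert v X) (r - 1 + 1) s := by
    refine hmod.cons (Finset.subset_insert _ _) (E := {v}) (Conn.singleton v) ?_ ?_ ?_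
    · simp
    · rw [Set.disjoint_singleton_left]
      intro h
      exact G.irrefl (hX v h)
    · intro y hy
      exact ⟨v, rfl, (hX y hy).symm⟩
  have e : r - 1 + 1 = r := by omega
  rw [e] at h2
  exact minor_of_model h2

theorem colour_of_degree [Finite V] {k d D : ℕ}
    (hdeg : ∀ (v : V) (X : Finset V), (∀ x ∈ X, G.Adj v x) → X.card ≤ D)
    (h : D < k * (d + 1)) : DefColorable G k d := by
  classical
  haveI := Fintype.ofFinite V
  have hk : 0 < k := by
    rcases Nat.eq_zero_or_pos k with h0 | h0
    · subst h0; omega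
    · exact h0
  obtain ⟨c, hc⟩ := lovasz (G := G) Finset.univ k d hk (by
    intro x _
    refine lt_of_le_of_lt (hdeg x _ ?_) h
    intro y hy
    exact (Finset.mem_filter.1 hy).2)
  refine ⟨c, fun v => ?_⟩
  have := hc v (Finset.mem_univ v)
  have e : {w | G.Adj v w ∧ c w = c v} =
      ((Finset.univ.filter (fun y => G.Adj v y ∧ c y = c v) : Finset V) : Set V) := by
    ext w; simp
  rw [e, Set.ncard_coe_finset]
  exact this

theorem main [Finite V] {t r s d : ℕ} (ht : 2 ≤ t) (hr : 2 ≤ r) (hs : 2 ≤ s)
    (hfree : IsEmpty (completeBipartiteGraph (Fin 1) (Fin t) ↪g G))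
    (hm : ¬ HasBicliqueMinor G r s) {k : ℕ}
    (h : (t - 1) * max r s + (2 * t - 3) * (min r s - 2) < k * (d + 1)) :
    DefColorable G k d := by
  rcases le_total r s with hrs | hrs
  · rw [max_eq_right hrs, min_eq_left hrs] at h
    exact colour_of_degree (fun v X hX => degree_bound ht hr hrs hfree hm v X hX) h
  · rw [max_eq_left hrs, min_eq_right hrs] at h
    exact colour_of_degree
      (fun v X hX => degree_bound ht hs hrs hfree (fun h' => hm (minor_swap h')) v X hX) h

theorem claw_free [Finite V] {r s d : ℕ} (hr : 3 ≤ r) (hd : 2 ≤ d) (hds : d + 1 ≤ s)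
    (hfree : IsEmpty (completeBipartiteGraph (Fin 1) (Fin 3) ↪g G))
    (hm : ¬ HasBicliqueMinor G r s) : DefColorable G (r + s - 1 - d) d := by
  obtain ⟨e, rfl⟩ : ∃ e, d = 2 + e := ⟨d - 2, by omega⟩
  obtain ⟨g, rfl⟩ : ∃ g, s = 3 + e + g := ⟨s - (3 + e), by omega⟩
  obtain ⟨h, rfl⟩ : ∃ h, r = 3 + h := ⟨r - 3, by omega⟩
  have hk : 3 + h + (3 + e + g) - 1 - (2 + e) = 3 + h + g := by omega
  rw [hk]
  by_cases hex : e = 0 ∧ g = 0 ∧ h = 0
  · obtain ⟨rfl, rfl, rfl⟩ := hex
    have := defColorable_main (G := G) 3 3 2 (by norm_num) (by norm_num) (by simpa using hm)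
    simpa [gam] using this
  · refine main (t := 3) (by norm_num) (by omega) (by omega) hfree hm ?_
    have key : 2 * max (3 + h) (3 + e + g) + 3 * (min (3 + h) (3 + e + g) - 2) <
        (3 + h + g) * (2 + e + 1) := by
      rcases le_total (3 + h) (3 + e + g) with hrs | hrs
      · rw [max_eq_right hrs, min_eq_left hrs]
        have e1 : 3 + h - 2 = 1 + h := by omega
        rw [e1]
        have hpos : 1 ≤ g + e := by
          by_contra hc
          exact hex ⟨by omega, by omega, by omega⟩
        nlinarith [Nat.zero_le (h * e), Nat.zero_le (g * e)]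
      · rw [max_eq_left hrs, min_eq_right hrs]
        have e1 : 3 + e + g - 2 = 1 + e + g := by omega
        rw [e1]
        have hpos : 1 ≤ h := by
          by_contra hc
          exact hex ⟨by omega, by omega, by omega⟩
        nlinarith [Nat.zero_le (h * e), Nat.zero_le (g * e)]
    simpa using key

end Pool.Agent.Work.MP_768e99_starfree
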