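import Pool.Agent.Work.MP_768e99_co.Main

set_option autoImplicit false
set_option linter.unusedSectionVars false
set_option linter.unusedSimpArgs false
set_option linter.unusedVariables false

namespace Pool.Agent.Work.MP_768e99_starfree

open Pool.Agent.Work.MP_768e99_co

variable {V : Type*} {G : SimpleGraph V}

/-- `x` has a neighbour in `S` -/
def Touch (G : SimpleGraph V) (x : V) (S : Set V) : Prop := ∃ u ∈ S, G.Adj x u

/-- an independent set -/
def Ind (G : SimpleGraph V) (S : Finset V) : Prop := ∀ x ∈ S, ∀ y ∈ S, ¬ G.Adj x y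

/-- independence number at most `a` -/
def AlphaLe (G : SimpleGraph V) (X : Finset V) (a : ℕ) : Prop :=
  ∀ S : Finset V, S ⊆ X → Ind G S → S.card ≤ a

lemma AlphaLe.mono {X Y : Finset V} {a : ℕ} (h : AlphaLe G X a) (hY : Y ⊆ X) : AlphaLe G Y a :=
  fun S hS hI => h S (hS.trans hY) hI

/-- `ρ` disjoint connected sets and `s` further vertices, each adjacent to all the sets -/
def Model (G : SimpleGraph V) (X : Finset V) (ρ s : ℕ) : Prop :=
  ∃ D : Fin ρ → Set V, ∃ y : Fin s → V, (∀ i, D i ⊆ (X : Set V)) ∧ (∀ j, y j ∈ X) ∧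
    (∀ i, Conn G (D i)) ∧ (∀ i j, i ≠ j → Disjoint (D i) (D j)) ∧ Function.Injective y ∧
    (∀ i j, y j ∉ D i) ∧ ∀ i j, Touch G (y j) (D i)

lemma Model.mono {X Y : Finset V} {ρ s : ℕ} (h : Model G Y ρ s) (hY : Y ⊆ X) :
    Model G X ρ s := by
  obtain ⟨D, y, h1, h2, h3⟩ := h
  exact ⟨D, y, fun i => (h1 i).trans (Finset.coe_subset.2 hY), fun j => hY (h2 j), h3⟩

/-- adding one connected set touched by all vertices of `Y` -/
lemma Model.cons {X Y : Finset V} {ρ s : ℕ} (h : Model G Y ρ s) (hY : Y ⊆ X) {E : Set V}
    (hE : Conn G E) (hEX : E ⊆ (X : Set V)) (hEY : Disjoint E (Y : Set V))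
    (hd : ∀ y ∈ Y, Touch G y E) : Model G X (ρ + 1) s := by
  obtain ⟨D, y, h1, h2, h3, h4, h5, h6, h7⟩ := h
  refine ⟨Fin.cons E D, y, ?_, fun j => hY (h2 j), ?_, ?_, h5, ?_, ?_⟩
  · intro i
    refine Fin.cases ?_ (fun i => ?_) i
    · simpa using hEX
    · simpa using (h1 i).trans (Finset.coe_subset.2 hY)
  · intro i
    refine Fin.cases ?_ (fun i => ?_) i
    · simpa using hE
    · simpa using h3 i
  · intro i j
    refine Fin.cases ?_ (fun i => ?_) i <;> refine Fin.cases ?_ (fun j => ?_) j
    · intro h; exact absurd rfl h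
    · intro _; simpa using hEY.mono_right (h1 j)
    · intro _; simpa using (hEY.mono_right (h1 i)).symm
    · intro h
      have h' : i ≠ j := fun e => h (by rw [e])
      simpa using h4 i j h'
  · intro i j
    refine Fin.cases ?_ (fun i => ?_) i
    · simpa using fun hh => Set.disjoint_left.1 hEY hh (h2 j)
    · simpa using h6 i j
  · intro i j
    refine Fin.cases ?_ (fun i => ?_) i
    · simpa using hd (y j) (h2 j)
    · simpa using h7 i j

/-- maximum independent subset -/
lemma exists_max_ind (X : Finset V) : ∃ I : Finset V, I ⊆ X ∧ Ind G I ∧ AlphaLe G X I.card := by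
  classical
  obtain ⟨I, hI, hmax⟩ := Finset.exists_max_image (X.powerset.filter (fun S => Ind G S))
    (fun S => S.card) ⟨∅, by
      rw [Finset.mem_filter, Finset.mem_powerset]
      exact ⟨Finset.empty_subset _, fun x hx => absurd hx (Finset.notMem_empty x)⟩⟩
  rw [Finset.mem_filter, Finset.mem_powerset] at hI
  refine ⟨I, hI.1, hI.2, ?_⟩
  intro S hS hSI
  exact hmax S (by rw [Finset.mem_filter, Finset.mem_powerset]; exact ⟨hS, hSI⟩)

open Classical in
/-- a vertex of large degree -/
lemma exists_star {X : Finset V} {a s : ℕ} (ha : AlphaLe G X a) (hX : a * s < X.card) :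
    ∃ x ∈ X, s ≤ (X.filter (fun y => G.Adj x y)).card := by
  by_contra hcon
  push Not at hcon
  obtain ⟨I, hIX, hI, hImax⟩ := exists_max_ind (G := G) X
  have hcov : X ⊆ I.biUnion (fun x => insert x (X.filter (fun y => G.Adj x y))) := by
    intro z hz
    rw [Finset.mem_biUnion]
    by_cases hzI : z ∈ I
    · exact ⟨z, hzI, Finset.mem_insert_self _ _⟩
    · by_contra hno
      push Not at hno
      have hind : Ind G (insert z I) := by
        intro x hx y hy hxy
        rw [Finset.mem_insert] at hx hy
        rcases hx with rfl | hx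
        · rcases hy with rfl | hy
          · exact G.irrefl hxy
          · exact hno y hy (Finset.mem_insert_of_mem (Finset.mem_filter.2 ⟨hz, hxy.symm⟩))
        · rcases hy with rfl | hy
          · exact hno x hx (Finset.mem_insert_of_mem (Finset.mem_filter.2 ⟨hz, hxy⟩))
          · exact hI x hx y hy hxy
      have := hImax (insert z I) (Finset.insert_subset hz hIX) hind
      rw [Finset.card_insert_of_notMem hzI] at this
      omega
  have h1 : X.card ≤ I.card * s := by
    refine (Finset.card_le_card hcov).trans (Finset.card_biUnion_le.trans ?_)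
    rw [← smul_eq_mul, ← Finset.sum_const]
    refine Finset.sum_le_sum fun x hx => ?_
    refine (Finset.card_insert_le _ _).trans ?_
    exact hcon x (hIX hx)
  have h2 : I.card ≤ a := ha I hIX hI
  have h3 : I.card * s ≤ a * s := Nat.mul_le_mul_right s h2
  omega

/-- connected dominating set (Duchet and Meyniel) -/
lemma exists_cds {X : Finset V} {a : ℕ} (hX : Conn G (X : Set V)) (ha : AlphaLe G X a) :
    ∃ D : Finset V, D ⊆ X ∧ Conn G (D : Set V) ∧ D.card + 1 ≤ 2 * a ∧
      ∀ x ∈ X, x ∉ D → Touch G x (D : Set V) := by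
  classical
  let Q : Finset (Finset V × Finset V) := (X.powerset ×ˢ X.powerset).filter
    (fun p => p.2 ⊆ p.1 ∧ Ind G p.2 ∧ Conn G (p.1 : Set V) ∧ p.1.card + 1 = 2 * p.2.card)
  have hQ : Q.Nonempty := by
    obtain ⟨x, hx⟩ := hX.1
    refine ⟨({x}, {x}), ?_⟩
    simp only [Q, Finset.mem_filter, Finset.mem_product, Finset.mem_powerset,
      Finset.singleton_subset_iff]
    refine ⟨⟨hx, hx⟩, Finset.mem_singleton_self x, ?_, ?_, by simp⟩
    · intro a ha b hb hab
      rw [Finset.mem_singleton] at ha hb
      subst ha; subst hb; exact G.irrefl hab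
    · rw [Finset.coe_singleton]; exact Conn.singleton x
  obtain ⟨⟨D, I⟩, hDI, hmax⟩ := Finset.exists_max_image Q (fun p => p.2.card) hQ
  simp only [Q, Finset.mem_filter, Finset.mem_product, Finset.mem_powerset] at hDI
  obtain ⟨⟨hDX, hIX⟩, hID, hI, hD, hc⟩ := hDI
  refine ⟨D, hDX, hD, ?_, ?_⟩
  · have := ha I hIX hI
    omega
  · by_contra hcon
    push Not at hcon
    obtain ⟨x, hxX, hxD, hx⟩ := hcon
    -- the closed neighbourhood of `D` is not closed
    obtain ⟨z, w, hzX, hwX, hzw, hzD, hwD, hw⟩ : ∃ z w, z ∈ X ∧ w ∈ X ∧ G.Adj z w ∧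
        Touch G z (D : Set V) ∧ w ∉ D ∧ ¬ Touch G w (D : Set V) := by
      by_contra hno
      push Not at hno
      have := hX.2 {y | y ∈ X ∧ (y ∈ D ∨ Touch G y (D : Set V))} (fun y hy => hy.1) (by
        obtain ⟨y, hy⟩ := hD.1
        exact ⟨y, hDX hy, Or.inl hy⟩) (by
        rintro y ⟨hyX, hy⟩ w hwX hyw
        refine ⟨hwX, ?_⟩
        rcases hy with hy | hy
        · exact Or.inr ⟨y, hy, hyw.symm⟩
        · by_cases hwD : w ∈ D
          · exact Or.inl hwD
          · exact Or.inr (hno y w hyX hwX hyw hy hwD))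
      rcases (this hxX).2 with h | h
      · exact hxD h
      · exact hx h
    have hzD' : z ∉ D := by
      intro h
      exact hw ⟨z, h, hzw.symm⟩
    have hwz : w ≠ z := hzw.ne'
    have hwI : w ∉ I := fun h => hwD (hID h)
    have hmem : (insert w (insert z D), insert w I) ∈ Q := by
      simp only [Q, Finset.mem_filter, Finset.mem_product, Finset.mem_powerset]
      refine ⟨⟨?_, ?_⟩, ?_, ?_, ?_, ?_⟩
      · exact Finset.insert_subset hwX (Finset.insert_subset hzX hDX)
      · exact Finset.insert_subset hwX hIX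
      · exact Finset.insert_subset_insert _ (hID.trans (Finset.subset_insert _ _))
      · intro a ha b hb hab
        rw [Finset.mem_insert] at ha hb
        rcases ha with rfl | ha
        · rcases hb with rfl | hb
          · exact G.irrefl hab
          · exact hw ⟨b, hID hb, hab⟩
        · rcases hb with rfl | hb
          · exact hw ⟨a, hID ha, hab.symm⟩
          · exact hI a ha b hb hab
      · have h1 : Conn G ((D : Set V) ∪ {z}) := hD.union (by
          intro x hx
          rw [Set.mem_singleton_iff] at hx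
          subst hx; exact hzD)
        have h2 : Conn G (((D : Set V) ∪ {z}) ∪ {w}) := h1.union (by
          intro x hx
          rw [Set.mem_singleton_iff] at hx
          subst hx
          exact ⟨z, Or.inr rfl, hzw.symm⟩)
        have h3 : ((insert w (insert z D) : Finset V) : Set V) = ((D : Set V) ∪ {z}) ∪ {w} := by
          ext y; simp
        rw [h3]; exact h2
      · rw [Finset.card_insert_of_notMem, Finset.card_insert_of_notMem hzD',
          Finset.card_insert_of_notMem hwI]
        · omega
        · rw [Finset.mem_insert]; push Not; exact ⟨hwz, hwD⟩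
    have := hmax _ hmem
    simp only at this
    rw [Finset.card_insert_of_notMem hwI] at this
    omega

theorem exists_model {s : ℕ} : ∀ (n : ℕ) (X : Finset V), X.card ≤ n → ∀ (a ρ : ℕ), 1 ≤ ρ →
    AlphaLe G X a → a * s + (2 * a - 1) * (ρ - 1) < X.card → Model G X ρ s := by
  classical
  intro n
  induction n with
  | zero => intro X hX a ρ _ _ h; omega
  | succ n ih =>
    intro X hX a ρ hρ ha h
    by_cases hconn : Conn G (X : Set V)
    · rcases Nat.lt_or_ge 1 ρ with h1 | h1
      · obtain ⟨D, hDX, hD, hDc, hdom⟩ := exists_cds hconn ha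
        have hDne : 1 ≤ D.card := by
          obtain ⟨x, hx⟩ := hD.1
          exact Finset.card_pos.2 ⟨x, hx⟩
        have hcard : (X \ D).card + D.card = X.card := Finset.card_sdiff_add_card_eq_card hDX
        have := ih (X \ D) (by omega) a (ρ - 1) (by omega) (ha.mono Finset.sdiff_subset) (by
          obtain ⟨p, rfl⟩ : ∃ p, ρ = p + 2 := ⟨ρ - 2, by omega⟩
          obtain ⟨b, rfl⟩ : ∃ b, a = b + 1 := ⟨a - 1, by omega⟩
          have e1 : p + 2 - 1 = p + 1 := by omega
          have e2 : p + 2 - 1 - 1 = p := by omega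
          have e3 : 2 * (b + 1) - 1 = 2 * b + 1 := by omega
          rw [e1, e3] at h
          rw [e2, e3]
          nlinarith)
        have e : ρ = (ρ - 1) + 1 := by omega
        rw [e]
        refine this.cons Finset.sdiff_subset hD (Finset.coe_subset.2 hDX) ?_ ?_
        · rw [Set.disjoint_left]
          intro x hx hx'
          exact (Finset.mem_sdiff.1 hx').2 hx
        · intro y hy
          rw [Finset.mem_sdiff] at hy
          exact hdom y hy.1 hy.2
      · have hρ1 : ρ = 1 := by omega
        subst hρ1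
        obtain ⟨x, hx, hxs⟩ := exists_star (s := s) ha (by simpa using h)
        obtain ⟨T, hT, hTc⟩ := Finset.exists_subset_card_eq hxs
        have e : Fin s ≃ T := (Fintype.equivFinOfCardEq (by simpa using hTc)).symm
        have hmem : ∀ j, (e j : V) ∈ X ∧ G.Adj x (e j) := by
          intro j
          have := hT (e j).2
          rwa [Finset.mem_filter] at this
        refine ⟨fun _ => {x}, fun j => (e j : V), ?_, fun j => (hmem j).1,
          fun _ => Conn.singleton x, ?_, ?_, ?_, ?_⟩
        · intro i; simpa using hx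
        · intro i j hij; exact absurd (Subsingleton.elim i j) hij
        · intro i j hij; exact e.injective (Subtype.ext hij)
        · intro i j hij
          exact (hmem j).2.ne' hij
        · intro i j
          exact ⟨x, rfl, (hmem j).2.symm⟩
    · -- disconnected
      have hXne : X.Nonempty := Finset.card_pos.1 (by omega)
      obtain ⟨T, hTX, hTne, hTcl, hTn⟩ : ∃ T : Set V, T ⊆ (X : Set V) ∧ T.Nonempty ∧
          (∀ x ∈ T, ∀ y ∈ (X : Set V), G.Adj x y → y ∈ T) ∧ ¬ (X : Set V) ⊆ T := by
        by_contra hno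
        push Not at hno
        exact hconn ⟨hXne, fun T h1 h2 h3 => hno T h1 h2 h3⟩
      set X1 := X.filter (fun x => x ∈ T) with hX1
      set X2 := X.filter (fun x => x ∉ T) with hX2
      have hc : X1.card + X2.card = X.card := Finset.card_filter_add_card_filter_not _
      obtain ⟨I1, hI1X, hI1, hm1⟩ := exists_max_ind (G := G) X1
      obtain ⟨I2, hI2X, hI2, hm2⟩ := exists_max_ind (G := G) X2
      have hX1ne : 1 ≤ X1.card := by
        obtain ⟨x, hx⟩ := hTne
        exact Finset.card_pos.2 ⟨x, Finset.mem_filter.2 ⟨hTX hx, hx⟩⟩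
      have hX2ne : 1 ≤ X2.card := by
        obtain ⟨x, hx, hxT⟩ := Set.not_subset.1 hTn
        exact Finset.card_pos.2 ⟨x, Finset.mem_filter.2 ⟨hx, hxT⟩⟩
      have hpos : ∀ (Y I : Finset V), 1 ≤ Y.card → AlphaLe G Y I.card → 1 ≤ I.card := by
        intro Y I hY hI
        obtain ⟨y, hy⟩ := Finset.card_pos.1 hY
        have := hI {y} (by simpa using hy) (by
          intro a ha b hb hab
          rw [Finset.mem_singleton] at ha hb
          subst ha; subst hb; exact G.irrefl hab)
        simpa using this
      have h1 := hpos X1 I1 hX1ne hm1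
      have h2 := hpos X2 I2 hX2ne hm2
      have hdisj : Disjoint I1 I2 := by
        rw [Finset.disjoint_left]
        intro x hx hx'
        exact (Finset.mem_filter.1 (hI2X hx')).2 (Finset.mem_filter.1 (hI1X hx)).2
      have h3 : I1.card + I2.card ≤ a := by
        rw [← Finset.card_union_of_disjoint hdisj]
        apply ha
        · exact Finset.union_subset (hI1X.trans (Finset.filter_subset _ _))
            (hI2X.trans (Finset.filter_subset _ _))
        · intro x hx y hy hxy
          rw [Finset.mem_union] at hx hy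
          rcases hx with hx | hx <;> rcases hy with hy | hy
          · exact hI1 x hx y hy hxy
          · have h5 := Finset.mem_filter.1 (hI1X hx)
            have h6 := Finset.mem_filter.1 (hI2X hy)
            exact h6.2 (hTcl x h5.2 y h6.1 hxy)
          · have h5 := Finset.mem_filter.1 (hI1X hy)
            have h6 := Finset.mem_filter.1 (hI2X hx)
            exact h6.2 (hTcl y h5.2 x h6.1 hxy.symm)
          · exact hI2 x hx y hy hxy
      have h4 : I1.card * s + (2 * I1.card - 1) * (ρ - 1) < X1.card ∨
          I2.card * s + (2 * I2.card - 1) * (ρ - 1) < X2.card := by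
        by_contra hno
        push Not at hno
        obtain ⟨b1, hb1⟩ : ∃ b, I1.card = b + 1 := ⟨I1.card - 1, by omega⟩
        obtain ⟨b2, hb2⟩ : ∃ b, I2.card = b + 1 := ⟨I2.card - 1, by omega⟩
        obtain ⟨g, hg⟩ : ∃ g, a = b1 + b2 + 2 + g := ⟨a - (b1 + b2 + 2), by omega⟩
        rw [hb1, hb2] at hno
        rw [hg] at h
        have e1 : 2 * (b1 + 1) - 1 = 2 * b1 + 1 := by omega
        have e2 : 2 * (b2 + 1) - 1 = 2 * b2 + 1 := by omega
        have e3 : 2 * (b1 + b2 + 2 + g) - 1 = 2 * b1 + 2 * b2 + 3 + 2 * g := by omega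
        rw [e1, e2] at hno
        rw [e3] at h
        generalize ρ - 1 = p at *
        nlinarith [Nat.zero_le (g * s), Nat.zero_le (g * p), Nat.zero_le p]
      rcases h4 with h4 | h4
      · exact (ih X1 (by omega) _ ρ hρ hm1 h4).mono (Finset.filter_subset _ _)
      · exact (ih X2 (by omega) _ ρ hρ hm2 h4).mono (Finset.filter_subset _ _)

end Pool.Agent.Work.MP_768e99_starfree
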